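import Pool.Agent.X72.TwoReg

/-!
# Open neighbourhood sum parameters of 2-regular graphs

`NS(G)`, `NS⁻(G)` and `NS^sp(G)` for the disjoint union `G` of the cycles `C_{t 0}, ..., C_{t (k-1)}`,
all of length at least `3`, not all of length `4` (in particular whenever the lengths are not all
equal).
-/

namespace Pool.Agent.Results.MP_af65a2_co.NeighborhoodSums

open Finset Pool.Agent.X72.TwoReg

section defs

variable {V : Type} [Fintype V]

open scoped Classical in
/-- the sum of the labels of the neighbours of `v`; the labels are `1, ..., n`, the vertex `u` has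
the label `f u + 1` where `f u ∈ {0, ..., n - 1}` -/
noncomputable def openSum (G : SimpleGraph V) (f : V ≃ Fin (Fintype.card V)) (v : V) : ℕ :=
  ∑ u ∈ univ.filter (fun u => G.Adj v u), ((f u : ℕ) + 1)

/-- `NS(f)`, the largest neighbourhood sum -/
noncomputable def maxSum (G : SimpleGraph V) (f : V ≃ Fin (Fintype.card V)) : ℕ :=
  ⨆ v, openSum G f v

/-- `NS⁻(f)`, the smallest neighbourhood sum -/
noncomputable def minSum (G : SimpleGraph V) (f : V ≃ Fin (Fintype.card V)) : ℕ :=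
  ⨅ v, openSum G f v

/-- `NS(G)` -/
noncomputable def NS (G : SimpleGraph V) : ℕ := ⨅ f : V ≃ Fin (Fintype.card V), maxSum G f

/-- `NS⁻(G)` -/
noncomputable def NSminus (G : SimpleGraph V) : ℕ := ⨆ f : V ≃ Fin (Fintype.card V), minSum G f

/-- `NS^sp(G)` -/
noncomputable def NSspread (G : SimpleGraph V) : ℤ :=
  ⨅ f : V ≃ Fin (Fintype.card V), ((maxSum G f : ℤ) - minSum G f)

end defs

/-- the disjoint union of the cycles `C_{t 0}, ..., C_{t (k-1)}` -/
def cyclesUnion {k : ℕ} (t : Fin k → ℕ) : SimpleGraph (Σ i, Fin (t i)) where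
  Adj u v := ∃ (i : Fin k) (a b : Fin (t i)), u = ⟨i, a⟩ ∧ v = ⟨i, b⟩ ∧
    (SimpleGraph.cycleGraph (t i)).Adj a b
  symm := ⟨by
    rintro _ _ ⟨i, a, b, rfl, rfl, h⟩
    exact ⟨i, b, a, rfl, rfl, h.symm⟩⟩
  loopless := ⟨by
    rintro _ ⟨i, a, b, h1, h2, h⟩
    rw [h1] at h2
    have := eq_of_heq (Sigma.mk.inj h2).2
    subst this
    exact (SimpleGraph.cycleGraph (t i)).loopless.irrefl _ h⟩

/-- the number of odd lengths plus twice the number of lengths `≡ 2` modulo `4` -/
def oddNumber {k : ℕ} (t : Fin k → ℕ) : ℕ :=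
  (univ.filter fun i => t i % 2 = 1).card + 2 * (univ.filter fun i => t i % 4 = 2).card

theorem oddNumber_eq {k : ℕ} (t : Fin k → ℕ) : oddNumber t = oo t := by
  unfold oddNumber oo
  rw [card_filter, card_filter, mul_sum, ← sum_add_distrib]
  refine Finset.sum_congr rfl fun i _ => ?_
  unfold nO
  split_ifs <;> omega


section

variable {k : ℕ} {t : Fin k → ℕ}

theorem adj_iff (i : Fin k) (a : Fin (t i)) (w : Σ i, Fin (t i)) :
    (cyclesUnion t).Adj ⟨i, a⟩ w ↔ ∃ b : Fin (t i), w = ⟨i, b⟩ ∧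
      (SimpleGraph.cycleGraph (t i)).Adj a b := by
  constructor
  · rintro ⟨j, a', b, h1, h2, h3⟩
    have h0 : i = j := congrArg Sigma.fst h1
    subst h0
    have h4 := eq_of_heq (Sigma.mk.inj h1).2
    subst h4
    exact ⟨b, h2, h3⟩
  · rintro ⟨b, h2, h3⟩
    exact ⟨i, a, b, rfl, h2, h3⟩

/-- the vertex one step further -/
def n1 (h3 : ∀ i, 3 ≤ t i) (v : Σ i, Fin (t i)) : Σ i, Fin (t i) :=
  ⟨v.1, ⟨(v.2.val + 1) % t v.1, Nat.mod_lt _ (by have := h3 v.1; omega)⟩⟩

theorem n1_surj (h3 : ∀ i, 3 ≤ t i) : Function.Surjective (n1 h3) := by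
  rintro ⟨i, b⟩
  have h0 := h3 i
  have hb := b.2
  refine ⟨⟨i, ⟨(b.val + (t i - 1)) % t i, Nat.mod_lt _ (by omega)⟩⟩, ?_⟩
  unfold n1
  simp only [Sigma.mk.injEq, heq_eq_eq, true_and]
  refine Fin.ext ?_
  show ((b.val + (t i - 1)) % t i + 1) % t i = b.val
  rw [Nat.mod_add_mod, show b.val + (t i - 1) + 1 = b.val + t i by omega, Nat.add_mod_right,
    Nat.mod_eq_of_lt hb]

theorem adj_n1 (h3 : ∀ i, 3 ≤ t i) (v w : Σ i, Fin (t i)) :
    (cyclesUnion t).Adj (n1 h3 v) w ↔ w = v ∨ w = nx t h3 v := by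
  obtain ⟨i, a⟩ := v
  have h0 := h3 i
  have ha := a.2
  unfold n1
  rw [adj_iff]
  simp only
  have hm : (a.val + 1) % t i = if a.val + 1 < t i then a.val + 1 else a.val + 1 - t i := by
    split_ifs with h
    · exact Nat.mod_eq_of_lt h
    · rw [Nat.mod_eq_sub_mod (by omega), Nat.mod_eq_of_lt (by omega)]
  have hm2 := mod_eq h0 ha
  have hsub : ∀ x y : Fin (t i), (x - y).val =
      if t i - y.val + x.val < t i then t i - y.val + x.val else x.val - y.val := by
    intro x y
    have hx := x.2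
    have hy := y.2
    rw [Fin.sub_def]
    show (t i - y.val + x.val) % t i = _
    split_ifs with h
    · exact Nat.mod_eq_of_lt h
    · rw [Nat.mod_eq_sub_mod (by omega), Nat.mod_eq_of_lt (by omega)]
      omega
  constructor
  · rintro ⟨b, rfl, hb⟩
    rw [SimpleGraph.cycleGraph_adj', hsub, hsub] at hb
    simp only at hb
    rw [hm] at hb
    have hb2 := b.2
    have : b.val = a.val ∨ b.val = (a.val + 2) % t i := by
      rw [hm2]
      split_ifs at hb ⊢ <;> omega
    rcases this with h | h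
    · left
      rw [Fin.ext h]
    · right
      unfold nx
      simp only [Sigma.mk.injEq, heq_eq_eq, true_and]
      exact Fin.ext h
  · intro h
    have : ∃ b : Fin (t i), w = ⟨i, b⟩ ∧ (b.val = a.val ∨ b.val = (a.val + 2) % t i) := by
      rcases h with rfl | rfl
      · exact ⟨a, rfl, Or.inl rfl⟩
      · exact ⟨_, rfl, Or.inr rfl⟩
    obtain ⟨b, rfl, hb⟩ := this
    refine ⟨b, rfl, ?_⟩
    rw [SimpleGraph.cycleGraph_adj', hsub, hsub]
    simp only
    rw [hm]
    have hb2 := b.2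
    rw [hm2] at hb
    split_ifs at hb ⊢ <;> omega

theorem openSum_eq (h3 : ∀ i, 3 ≤ t i)
    (f : (Σ i, Fin (t i)) ≃ Fin (Fintype.card (Σ i, Fin (t i)))) (v : Σ i, Fin (t i)) :
    openSum (cyclesUnion t) f (n1 h3 v) = ((f v : ℕ) + 1) + ((f (nx t h3 v) : ℕ) + 1) := by
  classical
  unfold openSum
  have : (univ.filter fun u => (cyclesUnion t).Adj (n1 h3 v) u) = {v, nx t h3 v} := by
    ext w
    simp only [mem_filter, mem_univ, true_and, mem_insert, mem_singleton]
    exact adj_n1 h3 v w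
  rw [this, sum_pair (nx_ne t h3 v).symm]

theorem bdd {V : Type} [Fintype V] (g : V → ℕ) : BddAbove (Set.range g) :=
  (Set.finite_range g).bddAbove

/-- **Main theorem.** Let `G` be the disjoint union of the cycles `C_{t 0}, ..., C_{t (k-1)}`, all of
length at least `3` and not all of length `4`, let `n` be its number of vertices and let `o` be the
number of odd lengths plus twice the number of lengths `≡ 2` modulo `4`. If `o > 0` then
`NS(G) = n + 1 + o`, `NS⁻(G) = n + 1 - o`, `NS^sp(G) = 2 o`, and if `o = 0` then `NS(G) = n + 2`,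
`NS⁻(G) = n`, `NS^sp(G) = 2`. One labeling is optimal for the three parameters at once. -/
theorem result {k : ℕ} (t : Fin k → ℕ) (h3 : ∀ i, 3 ≤ t i) (h4 : ∃ i, t i ≠ 4) :
    NS (cyclesUnion t) = (∑ i, t i) + 1 + max (oddNumber t) 1 ∧
    NSminus (cyclesUnion t) + max (oddNumber t) 1 = (∑ i, t i) + 1 ∧
    NSspread (cyclesUnion t) = 2 * max (oddNumber t : ℤ) 1 ∧
    ∃ f, maxSum (cyclesUnion t) f = NS (cyclesUnion t) ∧
      minSum (cyclesUnion t) f = NSminus (cyclesUnion t) := by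
  classical
  have hnn : (∑ i, t i) = nn t := rfl
  rw [oddNumber_eq, hnn]
  set D := max (oo t) 1 with hD
  obtain ⟨i0, hi0⟩ := h4
  have hV : Nonempty (Σ i, Fin (t i)) := ⟨⟨i0, ⟨0, by have := h3 i0; omega⟩⟩⟩
  have hpos : 0 < nn t := lt_of_lt_of_le (by have := h3 i0; omega) (le_nn t i0)
  have hcard := card_eq_nn t
  -- lower bounds
  have low : ∀ f : (Σ i, Fin (t i)) ≃ Fin (Fintype.card (Σ i, Fin (t i))),
      nn t + 1 + D ≤ maxSum (cyclesUnion t) f ∧ minSum (cyclesUnion t) f + D ≤ nn t + 1 := by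
    intro f
    let g : (Σ i, Fin (t i)) ≃ Fin (nn t) := f.trans (finCongr hcard)
    have hg : ∀ v, (g v : ℕ) = f v := fun v => rfl
    have hmax : ∃ v, nn t + 1 + D ≤ ((g v : ℕ) + 1) + ((g (nx t h3 v) : ℕ) + 1) := by
      rcases le_total (oo t) 1 with h | h
      · have hD1 : D = 1 := by rw [hD]; exact max_eq_right h
        obtain ⟨v, hv⟩ := top_even t h3 ⟨i0, hi0⟩ g
        exact ⟨v, by omega⟩
      · have hD1 : D = oo t := by rw [hD]; exact max_eq_left h
        obtain ⟨v, hv⟩ := top_pair t h3 hpos g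
        exact ⟨v, by omega⟩
    have hmin : ∃ v, ((g v : ℕ) + 1) + ((g (nx t h3 v) : ℕ) + 1) + D ≤ nn t + 1 := by
      rcases le_total (oo t) 1 with h | h
      · have hD1 : D = 1 := by rw [hD]; exact max_eq_right h
        obtain ⟨v, hv⟩ := bot_even t h3 ⟨i0, hi0⟩ g
        exact ⟨v, by omega⟩
      · have hD1 : D = oo t := by rw [hD]; exact max_eq_left h
        obtain ⟨v, hv⟩ := bot_pair t h3 hpos g
        exact ⟨v, by omega⟩
    constructor
    · obtain ⟨v, hv⟩ := hmax
      rw [hg, hg, ← openSum_eq h3 f v] at hv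
      exact hv.trans (le_ciSup (bdd _) (n1 h3 v))
    · obtain ⟨v, hv⟩ := hmin
      rw [hg, hg, ← openSum_eq h3 f v] at hv
      have : minSum (cyclesUnion t) f ≤ openSum (cyclesUnion t) f (n1 h3 v) :=
        ciInf_le (OrderBot.bddBelow _) (n1 h3 v)
      omega
  -- the labeling
  obtain ⟨f, hf⟩ := exists_good t h3
  have hf' : ∀ v, nn t + 1 ≤ openSum (cyclesUnion t) f v + D ∧
      openSum (cyclesUnion t) f v ≤ nn t + 1 + D := by
    intro v
    obtain ⟨w, rfl⟩ := n1_surj h3 v
    rw [openSum_eq]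
    exact hf w
  have fmax : maxSum (cyclesUnion t) f = nn t + 1 + D :=
    le_antisymm (ciSup_le fun v => (hf' v).2) (low f).1
  have fmin : minSum (cyclesUnion t) f + D = nn t + 1 := by
    refine le_antisymm (low f).2 ?_
    obtain ⟨v, hv⟩ := ciInf_mem (fun v => openSum (cyclesUnion t) f v)
    have h1 := (hf' v).1
    have h2 : minSum (cyclesUnion t) f = openSum (cyclesUnion t) f v := hv.symm
    omega
  have : Nonempty ((Σ i, Fin (t i)) ≃ Fin (Fintype.card (Σ i, Fin (t i)))) := ⟨f⟩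
  have hNS : NS (cyclesUnion t) = nn t + 1 + D := by
    refine le_antisymm ?_ (le_ciInf fun g => (low g).1)
    exact (ciInf_le (OrderBot.bddBelow _) f).trans fmax.le
  have hbd : BddAbove (Set.range fun g => minSum (cyclesUnion t) g) :=
    ⟨nn t + 1, by rintro _ ⟨g, rfl⟩; have := (low g).2; simp only; omega⟩
  have hNSm : NSminus (cyclesUnion t) + D = nn t + 1 := by
    have h1 : NSminus (cyclesUnion t) ≤ nn t + 1 - D := ciSup_le fun g => by
      have := (low g).2; omega
    have h2 : minSum (cyclesUnion t) f ≤ NSminus (cyclesUnion t) := le_ciSup hbd f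
    omega
  have hlow : ∀ g, (2 * D : ℤ) ≤ (maxSum (cyclesUnion t) g : ℤ) - minSum (cyclesUnion t) g := by
    intro g
    obtain ⟨h1, h2⟩ := low g
    omega
  refine ⟨hNS, hNSm, ?_, f, ?_, ?_⟩
  · have e : max (oo t : ℤ) 1 = (D : ℤ) := by rw [hD]; push_cast; rfl
    rw [e]
    refine le_antisymm ?_ (le_ciInf hlow)
    have h1 : NSspread (cyclesUnion t) ≤ (maxSum (cyclesUnion t) f : ℤ) - minSum (cyclesUnion t) f :=
      ciInf_le ⟨(2 * D : ℤ), by rintro _ ⟨g, rfl⟩; exact hlow g⟩ f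
    omega
  · rw [fmax, hNS]
  · omega

end

end Pool.Agent.Results.MP_af65a2_co.NeighborhoodSums
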